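import Pool.Agent.Y174.W5

/-!
MP_97d78d_ag, Q1: abundance for projective varieties of any Kodaira dimension for which some symmetric
power of the cotangent bundle is generically generated by its global sections.
-/

set_option autoImplicit false

open Pool.Agent.W619.TW Pool.Agent.W619.Y Pool.Agent.Y174

namespace Pool.Agent.Results.MP_97d78d_ag.AbundanceSymmetricDifferentials

/-- Let `V → W` be an algebraic fibre space, `V` and `W` projective varieties with function fields `K`
and `L`, `dim W = d`, `dim V = d + (r + 1)`, for instance the Iitaka fibration of `V`. Let `F` be the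
function field of the geometric generic fibre, over the algebraic closure `Λ` of `L`. If the `m`-th
symmetric power of the cotangent bundle of `V` is generically generated by its global sections, then
so is the one of the geometric generic fibre. If this holds for the geometric generic fibre and its
Kodaira dimension is at most `0`, then it has a cyclic cover, with function field `F (t)`,
`t ^ m ∈ F`, which is of maximal Albanese dimension and of Kodaira dimension `0`, so birational to an
abelian variety (Kawamata), and `ν (V) ≤ dim W + ν (F (t))`. So `ν (V) ≤ dim W`, which is `κ (V)` for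
the Iitaka fibration. -/
theorem result {L K Λ F : Type} [Field L] [Field K] [Field Λ] [Field F]
    -- the function fields of `W` and `V`
    [Algebra ℂ L] [Algebra ℂ K] [Algebra L K] [IsScalarTower ℂ L K]
    [Algebra.EssFiniteType ℂ L] [Algebra.EssFiniteType ℂ K] {d r m : ℕ}
    (hW : Algebra.trdeg ℂ L = d) (hV : Algebra.trdeg ℂ K = (d + (r + 1) : ℕ))
    (hLK : ∀ x : K, IsAlgebraic L x → x ∈ Set.range (algebraMap L K))
    -- the geometric generic fibre
    [Algebra L Λ] [IsAlgClosure L Λ] [Algebra Λ F] [Algebra K F] [Algebra L F]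
    [IsScalarTower L Λ F] [IsScalarTower L K F] [Algebra ℂ Λ] [Algebra ℂ F]
    [IsScalarTower ℂ L Λ] [IsScalarTower ℂ Λ F] [IsScalarTower ℂ K F]
    (hF : IntermediateField.adjoin Λ (Set.range (algebraMap K F)) = ⊤) :
    (GenGen ℂ K (d + (r + 1)) m → GenGen Λ F (r + 1) m) ∧
    (1 ≤ m → ¬ KodTr Λ F (r + 1) 1 → GenGen Λ F (r + 1) m →
      ∃ t : AlgebraicClosure F, t ≠ 0 ∧ (∃ f : F, algebraMap F (AlgebraicClosure F) f = t ^ m) ∧
        MaxAlb Λ (IntermediateField.adjoin F {t}) (r + 1) ∧ KodTr Λ F (r + 1) 0 ∧
        (∀ a, KodTr Λ F (r + 1) a ↔ KodTr Λ (IntermediateField.adjoin F {t}) (r + 1) a) ∧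
        ∀ h, NumLe Λ (IntermediateField.adjoin F {t}) (r + 1) (fun _ => False) h →
          NumLe Λ F (r + 1) (fun _ => False) h ∧
          NumLe ℂ K (d + (r + 1)) (fun _ => False) (d + h)) := by
  have h1 : IsAlgClosed Λ := IsAlgClosure.isAlgClosed L
  have h2 : Algebra.IsAlgebraic L Λ := IsAlgClosure.isAlgebraic
  exact ⟨fun hgen => gengen_fib0 ‹Algebra.EssFiniteType ℂ K› hW hV hF hgen,
    fun hm hκ hgen => main_fib ‹Algebra.EssFiniteType ℂ L› ‹Algebra.EssFiniteType ℂ K› hW hV hLK hF
      hm hκ hgen⟩

end Pool.Agent.Results.MP_97d78d_ag.AbundanceSymmetricDifferentials
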