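import Pool.Agent.Y706.Tw2

/-!
# Abundance for iterated quotients

A class of projective varieties which is closed under several operations, among them the passage
from `Y` to a quotient of a product of `Y` and curves, which may be iterated: at each step a finite
group acts on the product of the variety obtained so far and of new curves, and its elements need
not lift to a product of curves. The members satisfy the abundance conjecture: if `X` is a projective
manifold in the class, then either `X` is uniruled and `K_X` is not pseudo-effective, or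
`κ (X) = ν (X)`, and this number is computed along the construction.

A variety of dimension `n` is given by its function field `K`; the pluricanonical forms and the
sections of `m K_X + A` are given by functions of `n` rational vector fields with conditions at all
prime divisors over the variety (divisorial places of `K`), so that they are the sections on every
smooth projective model. `IsPsef`, `KodTr`, `KodGe`, `NumLe` are defined in
`Pool/Agent/W619/TW` and `Pool/Agent/W619/Y/Stm6.lean`, `IsUniruled` and `IsDivisorial` in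
`Pool/Agent/W619/PQ/Defs.lean`, `MixedPos` in `Pool/Agent/W619/Y/Cond.lean`.
-/

set_option autoImplicit false
set_option linter.overlappingInstances false

open FF IntermediateField Pool.Agent.W619.PQ Pool.Agent.W619.TW Pool.Agent.W619.X
  Pool.Agent.W619.Y

namespace Pool.Agent.Results.MP_97d78d_ag.IteratedQuotients

/-- The affine coordinates of the product of the projective spaces. -/
noncomputable def affine {r : ℕ} {n : Fin r → ℕ} {K : Type} [Field K]
    (x : ∀ i, Fin (n i + 1) → K) (b : (i : Fin r) × Fin (n i)) : K :=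
  x b.1 b.2.succ / x b.1 0

/-- The multiplicities which satisfy the divisibility conditions. -/
def Admissible {r R : ℕ} (m : Fin R → ℕ) (b : Fin R → Fin r → ℕ) (v : Fin r → ℕ) : Prop :=
  v ≠ 0 ∧ ∀ j, m j ∣ ∑ i, b j i * v i

/-- The weight `∑ i, (1 - (n i + 1) / d i) * v i`. -/
def weight {r : ℕ} (n d v : Fin r → ℕ) : ℚ := ∑ i, (((d i : ℚ) - n i - 1) / d i) * v i

/-- The cotangent bundle of `Z`, of dimension `n`, with function field `L`, is generated at a general
point by a `G`-stable space `V` of closed 1-forms which are regular along all prime divisors over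
`Z`, the condition of Reid and Tai holds for the eigenvalues of the elements of `G` on `V`, and the
vector fields on which all forms in `V` are constant form a space of dimension `n - a` and are
regular on a projective model. -/
def ClosedForms (L : Type) [Field L] [Algebra ℂ L] (G : Subgroup (L ≃ₐ[ℂ] L)) (n a : ℕ) : Prop :=
  ∃ V : Submodule ℂ (Derivation ℂ L L →ₗ[L] L), (∀ θ ∈ V, Pool.Agent.Y173.QA.IsRegForm n θ) ∧
    (∀ θ ∈ V, Pool.Agent.Y173.QA.IsClosedForm θ) ∧
    (∀ g ∈ G, ∀ θ ∈ V, ∃ θ' ∈ V, Pool.Agent.Y173.QA.IsImage g θ θ') ∧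
    (∃ (θ : Fin n → Derivation ℂ L L →ₗ[L] L) (D : Fin n → Derivation ℂ L L),
      (∀ i, θ i ∈ V) ∧ (Matrix.of fun i j => θ i (D j)).det ≠ 0) ∧
    Pool.Agent.Y173.QA.ReidTai n G V 0 ∧
    Pool.Agent.Y173.QA.IsRegularOnModel (Pool.Agent.Y173.QA.constFields V) ∧
    a + Module.finrank ℂ (Pool.Agent.Y173.QA.constFields V) = n

/-- `K` is generated by the affine coordinates of the product of the projective `n i`-spaces and by
roots `z j`, `z j ^ (m j) = ∏ i, (F i (x i) / x i 0 ^ (d i)) ^ (b j i)`, where `m j` divides
`b j i * d i` and the hypersurfaces `F i = 0`, of degree `d i`, are smooth. -/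
def BranchedCover (K : Type) [Field K] [Algebra ℂ K] {r R : ℕ} (n d : Fin r → ℕ) (m : Fin R → ℕ)
    (b : Fin R → Fin r → ℕ) : Prop :=
  (∀ j, 1 ≤ m j) ∧ (∀ j i, m j ∣ b j i * d i) ∧ ∃ F : ∀ i, MvPolynomial (Fin (n i + 1)) ℂ,
    (∀ i, (F i).IsHomogeneous (d i)) ∧
    (∀ i, ∀ p : Fin (n i + 1) → ℂ, p ≠ 0 →
      ∃ l, MvPolynomial.eval p (MvPolynomial.pderiv l (F i)) ≠ 0) ∧
    ∃ (x : ∀ i, Fin (n i + 1) → K) (z : Fin R → K), (∀ i, x i 0 ≠ 0) ∧
      IsTranscendenceBasis ℂ (affine x) ∧
      (∀ j, z j ^ m j = ∏ i, (MvPolynomial.aeval (x i) (F i) / x i 0 ^ d i) ^ b j i) ∧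
      IntermediateField.adjoin ℂ (Set.range (affine x) ∪ Set.range z) = ⊤

/-- `K` is an abelian cover of a product of projective spaces branched along smooth hypersurfaces of
the factors, all admissible vectors have weight at least one, and `a` is the sum of the `n i` over
those `i` such that `v i = 0` for all admissible `v` of weight one. -/
def Hypersurfaces (K : Type) [Field K] [Algebra ℂ K] (N a : ℕ) : Prop :=
  ∃ (r R : ℕ) (n d : Fin r → ℕ) (m : Fin R → ℕ) (b : Fin R → Fin r → ℕ), 1 ≤ r ∧
    (∀ i, 1 ≤ n i) ∧ (∀ i, 1 ≤ d i) ∧ N = ∑ i, n i ∧ BranchedCover K n d m b ∧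
    (∀ v, Admissible m b v → 1 ≤ weight n d v) ∧
    ∃ I : Finset (Fin r), (∀ i, i ∈ I ↔ ∀ v, Admissible m b v → weight n d v = 1 → v i = 0) ∧
      a = ∑ i ∈ I, n i

/-- `L` is the function field of the product of a variety `Y`, of dimension `d` and with function
field `M`, and `n` curves with function fields `F i`, and the finite group `G` permutes the curves
through `σ` and satisfies `MixedPos`, for instance because the fixed loci of the elements `g ≠ 1` on
the product of the curves have codimension at least `7` or are empty. -/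
def ProductWithCurves (L : Type) [Field L] [Algebra ℂ L] (d n : ℕ) (M : IntermediateField ℂ L)
    (F : Fin n → IntermediateField ℂ L) (G : Subgroup (L ≃ₐ[ℂ] L))
    (σ : G →* Equiv.Perm (Fin n)) : Prop :=
  Algebra.trdeg ℂ L = (d + n : ℕ) ∧ (∀ i, IsFF ℂ (F i)) ∧ M ⊔ (⨆ i, F i) = ⊤ ∧
    (∀ (g : G) i, ∀ z ∈ F i, (g : L ≃ₐ[ℂ] L) z ∈ F (σ g i)) ∧ MixedPos G σ F

/-- The condition of Reid and Tai for terminal quotients holds for a `G`-stable space `W` of regular
1-forms on the variety with function field `L`, of dimension `d + r`, and a tensor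
`c (α 0 ∧ ... ∧ α (d - 1)) ^ m` which is a regular section of `(Ω ^ d) ^ ⊗ m` (for instance the
pull-back of a pluricanonical form of a variety of dimension `d`); and `W` contains `r` forms which
are linearly independent together with the `α i`. -/
def TerminalAction (L : Type) [Field L] [Algebra ℂ L] (d r : ℕ) (G : Subgroup (L ≃ₐ[ℂ] L)) :
    Prop :=
  ∃ (m : ℕ) (α : Fin d → (Derivation ℂ L L →ₗ[L] L)) (c : L)
    (W : Submodule ℂ (Derivation ℂ L L →ₗ[L] L)) (η : Fin r → (Derivation ℂ L L →ₗ[L] L)),
    1 ≤ m ∧ c ≠ 0 ∧
    (∀ w : Place ℂ L, IsDivisorial w (d + r) → ∀ D : Fin d → Derivation ℂ L L,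
      (∀ j f, w.Reg f → w.Reg (D j f)) → w.Reg (c * (Matrix.of fun i j => α i (D j)).det ^ m)) ∧
    (∀ η ∈ W, Pool.Agent.Y173.QA.IsRegForm (d + r) η) ∧
    (∀ g ∈ G, ∀ η ∈ W, Pool.Agent.Y174.gForm g η ∈ W) ∧ (∀ i, η i ∈ W) ∧
    LinearIndependent L (Fin.append α η) ∧ Pool.Agent.Y174.ReidTaiTensor d r m G α c W

/-- The number of the curves with function fields `F i` which are not elliptic. -/
noncomputable def nonElliptic {L : Type} [Field L] [Algebra ℂ L] {n : ℕ}
    (F : Fin n → IntermediateField ℂ L) : ℕ := {i | ¬ IsElliptic (F i)}.ncard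

/-- The class of varieties: `Member K n a` says that the variety of dimension `n` with function field
`K` belongs to the class, with the number `a` for its Kodaira dimension (if it is not uniruled). It
is the smallest class which contains all uniruled varieties, all varieties of general type, the
quotients `Z / G` as in `ClosedForms` (for instance `Z` may be a subvariety of an abelian variety)
and the covers of products of projective spaces as in `Hypersurfaces`, and which is closed under the
following operations.

* `birational`: birational equivalence.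
* `curves`: the passage from `Y` to every quotient of the product of `Y` and curves by a finite group
  of birational automorphisms which permutes the curves and satisfies `MixedPos`; the number of the
  curves which are not elliptic is added to `a`.
* `terminal`: the passage from `Z` to `Z / G` as in `TerminalAction`. -/
inductive Member : ∀ (K : Type) [Field K] [Algebra ℂ K], ℕ → ℕ → Prop
  | uniruled (K : Type) [Field K] [Algebra ℂ K] [Algebra.EssFiniteType ℂ K] (n a : ℕ)
      (_ : Algebra.trdeg ℂ K = n) (_ : IsUniruled ℂ K n) : Member K n a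
  | generalType (K : Type) [Field K] [Algebra ℂ K] [Algebra.EssFiniteType ℂ K] (n : ℕ)
      (_ : Algebra.trdeg ℂ K = n) (_ : KodTr ℂ K n n) : Member K n n
  | closedForms (L : Type) [Field L] [Algebra ℂ L] [Algebra.EssFiniteType ℂ L] (n a : ℕ)
      (_ : Algebra.trdeg ℂ L = n) (G : Subgroup (L ≃ₐ[ℂ] L)) [Finite G]
      (_ : ClosedForms L G n a) : Member (fixedField G) n a
  | hypersurfaces (K : Type) [Field K] [Algebra ℂ K] (N a : ℕ) (_ : Hypersurfaces K N a) :
      Member K N a
  | birational (K K' : Type) [Field K] [Algebra ℂ K] [Field K'] [Algebra ℂ K']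
      (_ : K ≃ₐ[ℂ] K') (n a : ℕ) (_ : Member K n a) : Member K' n a
  | curves (L : Type) [Field L] [Algebra ℂ L] (d n a : ℕ) (M : IntermediateField ℂ L)
      (_ : Member M d a) (F : Fin n → IntermediateField ℂ L) (G : Subgroup (L ≃ₐ[ℂ] L)) [Finite G]
      (σ : G →* Equiv.Perm (Fin n)) (_ : ProductWithCurves L d n M F G σ) :
      Member (fixedField G) (d + n) (a + nonElliptic F)
  | terminal (L : Type) [Field L] [Algebra ℂ L] (d r a : ℕ) (_ : Member L (d + r) a)
      (G : Subgroup (L ≃ₐ[ℂ] L)) [Finite G] (_ : TerminalAction L d r G) :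
      Member (fixedField G) (d + r) a

/-- **Abundance for the class.** Let `X` be a projective manifold of dimension `n` whose function
field `K` belongs to the class, with the number `a`. Either `X` is uniruled and `K_X` is not
pseudo-effective, or `K_X` is pseudo-effective and `κ (X) = ν (X) = a`. In particular, if `K_X` is
nef, then `κ (X) = ν (X) = a` (and then `K_X` is semiample by a theorem of Kawamata). -/
theorem result {K : Type} [Field K] [Algebra ℂ K] {n a : ℕ} (h : Member K n a) :
    (IsUniruled ℂ K n ∧ ¬ IsPsef ℂ K n (fun _ => False)) ∨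
    (KodTr ℂ K n a ∧ KodGe ℂ K n (fun _ => False) a ∧ NumLe ℂ K n (fun _ => False) a ∧
      IsPsef ℂ K n (fun _ => False)) := by
  refine Pool.Agent.Y706.Tw.Good.concl ?_
  induction h with
  | uniruled K n a hn hU =>
    exact Pool.Agent.Y706.Tw.Good.uniruled a ‹Algebra.EssFiniteType ℂ K› hn hU
  | generalType K n hn hG =>
    exact Pool.Agent.Y706.Tw.Good.generalType ‹Algebra.EssFiniteType ℂ K› hn hG
  | closedForms L n a hn G hV =>
    obtain ⟨V, h1, hcl, h2, h3, hRT, hmod, ha⟩ := hV
    exact Pool.Agent.Y706.Tw.Good.closed ‹Algebra.EssFiniteType ℂ L› hn G V h1 hcl h2 h3 hRT hmod ha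
  | hypersurfaces K N a h =>
    obtain ⟨r, R, n, d, m, b, hr, hn, hd, hN, ⟨hm, hdiv, F, hF, hs, x, z, hx0, hbas, hz, hgen⟩,
      hpos, I, hI, rfl⟩ := h
    exact Pool.Agent.Y706.Tw.Good.hyper hr hn hN hd hF hs hx0 hbas hm hdiv hz hgen I hI hpos
  | birational K K' e n a _ ih => exact ih.iso e
  | curves L d n a M _ F G σ h ih =>
    obtain ⟨hn, hF, hsup, hσ, hpos⟩ := h
    exact Pool.Agent.Y706.Tw.Good.curves hn M ih F hF hsup G σ hσ hpos
  | terminal L d r a _ G h ih =>
    obtain ⟨m, α, c, W, η, hm, hc, hT, hWr, hWG, hη, hli, hRT⟩ := h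
    exact Pool.Agent.Y706.Tw.Good.terminal ih G hWr hWG hc hm hT hRT η hη hli

end Pool.Agent.Results.MP_97d78d_ag.IteratedQuotients
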