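import Pool.Agent.Y169.TH.Mak

/-!
# Abundance for abelian covers of projective space branched along normal crossing hypersurfaces

Let `F k`, `k = 0, ..., n`, be forms of degrees `d k` in `n + 1` variables whose zero sets in the
projective `n`-space are smooth hypersurfaces with normal crossings (no two of which, and no `j` of
which for any `j`, are tangent: at every point the gradients of the forms which vanish there are
linearly independent). Let `X` be a projective manifold which is birational to an abelian cover of
the projective space which is branched only along these hypersurfaces: the function field `K` of `X`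
is generated by the affine coordinates `x (b + 1) / x 0` and by roots `z j`,
`z j ^ (m j) = ∏ k, (F k (x) / x 0 ^ (d k)) ^ (a j k)`, where `m j` divides `∑ k, a j k * d k`.
(Covers which are branched along fewer hypersurfaces are included: add general hyperplanes, with
`a j k = 0`.)

The vectors `v ≠ 0` of nonnegative integers, not all positive, with `m j ∣ ∑ k, a j k * v k` for all
`j` are the `Admissible` ones: they are the multiplicities of the hypersurfaces along the divisors
over `X`. The pluricanonical forms `∏ k, F k ^ (y k - 1) * Ω`, with rational exponents and of degree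
zero (`Ω` is the form of degree `n + 1`), are regular along all these divisors if and only if `y` is
in the `polyhedron`: `∑ k, d k * y k = ∑ k, (d k - 1)` and `∑ k, v k * y k ≥ 1` for all admissible
`v`. The theorem: `K_X` is pseudo-effective if and only if `κ (X) ≥ 0`, if and only if the
polyhedron is not empty; in this case `κ (X) = ν (X)` is the dimension of the polyhedron.

The covers have quotient singularities, in general not canonical ones, and the canonical class of `X`
is in general not the pullback of the canonical class of the cover. So `κ (X)` may be strictly between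
`0` and `n`: for the surface `z ^ 3 = F 0 * F 1 ^ 2 * F 2` with `d = (1, 3, 2)` the polyhedron is the
segment of the points `(1 - s, s, 1 - s)` with `1 / 3 ≤ s ≤ 2 / 3`, and `κ (X) = 1`.

The Kodaira and the numerical dimension are given by the sections of `m K_X` and of `m K_X + A`:
functions of `n = dim X` rational vector fields, with a condition at all divisorial places of `K`, so
that they are the sections on every smooth projective model of `K`.
-/

set_option autoImplicit false

open FF MvPolynomial Pool.Agent.W602.GT

namespace Pool.Agent.Results.MP_97d78d_ag.NormalCrossingCovers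

/-- The hypersurfaces `F k = 0` have normal crossings: at every point of the projective space the
gradients of the forms `F k` which vanish at this point are linearly independent. -/
def NormalCrossings {n : ℕ} (F : Fin (n + 1) → MvPolynomial (Fin (n + 1)) ℂ) : Prop :=
  ∀ x : Fin (n + 1) → ℂ, x ≠ 0 → LinearIndependent ℂ
    fun (k : {k // eval x (F k) = 0}) (l : Fin (n + 1)) => eval x (pderiv l (F k.1))

/-- The affine coordinates of the projective space. -/
noncomputable def affine {n : ℕ} {K : Type} [Field K] (x : Fin (n + 1) → K) (b : Fin n) : K :=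
  x b.succ / x 0

section

variable {n R : ℕ}

/-- The multiplicities which satisfy the divisibility conditions. -/
def Admissible (m : Fin R → ℕ) (a : Fin R → Fin (n + 1) → ℕ) (v : Fin (n + 1) → ℕ) : Prop :=
  v ≠ 0 ∧ (∃ k, v k = 0) ∧ ∀ j, m j ∣ ∑ k, a j k * v k

/-- The exponents of the regular forms. -/
def polyhedron (m : Fin R → ℕ) (a : Fin R → Fin (n + 1) → ℕ) (d : Fin (n + 1) → ℕ) :
    Set (Fin (n + 1) → ℚ) :=
  {y | ∑ k, (d k : ℚ) * y k = ∑ k, ((d k : ℚ) - 1) ∧
    ∀ v, Admissible m a v → 1 ≤ ∑ k, (v k : ℚ) * y k}

end

section sections

/-- `ω` is a section of `m K_X + j A`: a rational section of the `m`-th power of the canonical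
bundle (`IsPluri`: a function of `N` rational vector fields which is multiplied by `det B ^ m` under
a linear substitution `B`) whose order on the vector fields which are regular at `P` is at least `j`
times the order of one of the functions in `S`, for all prime divisors `P` over `X` (all divisorial
places `P` of `K`). Here `A` is the divisor which is generated by the finite set `S` of functions;
`A = 0` if `S = {1}`. -/
def IsSection {K : Type} [Field K] [Algebra ℂ K] (N : ℕ) (S : Finset K) (m j : ℕ)
    (ω : (Fin N → Derivation ℂ K K) → K) : Prop :=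
  IsPluri m ω ∧ ∀ P : Place ℂ K, Divisorial N P → ∀ D : Fin N → Derivation ℂ K K,
    (∀ c, DerReg P (D c)) → ω D = 0 ∨ ∃ s ∈ S, s ≠ 0 ∧ j * P.ord s ≤ P.ord (ω D)

variable (N : ℕ) (K : Type) [Field K] [Algebra ℂ K]

/-- `κ (X) ≥ h`: for some `m > 0` there are sections of `m K_X` whose ratios contain `h`
algebraically independent functions (for `h = 0`: there is a nonzero section). -/
def KodairaGe (h : ℕ) : Prop :=
  ∃ m : ℕ, 0 < m ∧ ∃ ω : Fin (h + 1) → (Fin N → Derivation ℂ K K) → K,
    (∀ b, IsSection N {1} m 1 (ω b)) ∧
    ∃ D, ω 0 D ≠ 0 ∧ AlgebraicIndependent ℂ (fun b : Fin h => ω b.succ D / ω 0 D)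

/-- `ν (X) ≤ h`: for every divisor `A` there is a constant `C` such that
`h⁰ (m K_X + A) ≤ C m ^ h` for all `m ≥ 1`. -/
def NumericalLe (h : ℕ) : Prop :=
  ∀ S : Finset K, ∃ C : ℕ, ∀ m M : ℕ, 1 ≤ m →
    (∃ ω : Fin M → (Fin N → Derivation ℂ K K) → K, LinearIndependent ℂ ω ∧
      ∀ l, IsSection N S m 1 (ω l)) → M ≤ C * m ^ h

/-- `K_X` is pseudo-effective: there is a divisor `A` such that for all `M` a positive multiple of
`M K_X + A` is effective. -/
def Pseudoeffective : Prop :=
  ∃ S : Finset K, ∀ M : ℕ, ∃ j : ℕ, 1 ≤ j ∧ ∃ ω : (Fin N → Derivation ℂ K K) → K, ω ≠ 0 ∧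
    IsSection N S (j * M) j ω

end sections

/-- **Abundance.** Let `X` be a projective manifold birational to an abelian cover of the projective
`n`-space which is branched along `n + 1` hypersurfaces `F k = 0` with normal crossings, and let `K`
be the function field of `X`. Then `K_X` is pseudo-effective if and only if `κ (X) ≥ 0` and if and
only if the polyhedron is not empty; in this case `κ (X) = ν (X)` is the dimension of the
polyhedron. -/
theorem result (n R : ℕ) (hn : 1 ≤ n) (d : Fin (n + 1) → ℕ) (hd : ∀ k, 1 ≤ d k)
    (F : Fin (n + 1) → MvPolynomial (Fin (n + 1)) ℂ) (hF : ∀ k, (F k).IsHomogeneous (d k))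
    (hs : NormalCrossings F) (m : Fin R → ℕ) (hm : ∀ j, 1 ≤ m j) (a : Fin R → Fin (n + 1) → ℕ)
    (hdiv : ∀ j, m j ∣ ∑ k, a j k * d k)
    (K : Type) [Field K] [Algebra ℂ K] (x : Fin (n + 1) → K) (hx0 : x 0 ≠ 0)
    (hbas : IsTranscendenceBasis ℂ (affine x)) (z : Fin R → K)
    (hz : ∀ j, z j ^ m j = ∏ k, (aeval x (F k) / x 0 ^ d k) ^ a j k)
    (hgen : IntermediateField.adjoin ℂ (Set.range (affine x) ∪ Set.range z) = ⊤) :
    (Pseudoeffective n K ↔ (polyhedron m a d).Nonempty) ∧
    (KodairaGe n K 0 ↔ (polyhedron m a d).Nonempty) ∧
    ((polyhedron m a d).Nonempty →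
      KodairaGe n K (Module.finrank ℚ (vectorSpan ℚ (polyhedron m a d))) ∧
      NumericalLe n K (Module.finrank ℚ (vectorSpan ℚ (polyhedron m a d)))) := by
  obtain ⟨e, rfl⟩ : ∃ e, n = e + 1 := ⟨n - 1, by omega⟩
  have hp : polyhedron m a d = Pool.Agent.Y169.TH.PiA m a d := by
    unfold polyhedron Pool.Agent.Y169.TH.PiA
    rw [Finset.sum_sub_distrib]
    simp only [Finset.sum_const, Finset.card_univ, Fintype.card_fin, nsmul_eq_mul, mul_one]
    rfl
  rw [hp]
  exact Pool.Agent.Y169.TH.main hx0 hbas hd hF hs hm hz hdiv hgen

end Pool.Agent.Results.MP_97d78d_ag.NormalCrossingCovers
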