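import Pool.Agent.Y191.CycLow4

/-!
# Abundance for fibre products of families of superelliptic curves over varieties with many
hyperplane sections of small multiplicity

Let `X` be a projective manifold (or a projective variety with canonical singularities), `X ⇢ P^v` a
rational map whose image `Y`, any subvariety of `P^v`, has dimension `p`, and `Y'` the normalization
of `Y` in `X`: its function field `F` is the algebraic closure of `ℂ(Y)` in `ℂ(X)`. Suppose:

* (the fibres) `X` is birational to the fibre product over `Y'` of `e` arbitrary cyclic covers of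
  `Y' × P^1`, that is `ℂ(X)` is generated over `F` by `x j`, `z j`, `j < e = dim X - p`, the `x j` are
  algebraically independent over `F` and

  `z j ^ m j = c j * ∏ k, g j k (x j) ^ a j k`, `m j ≥ 1`, `a j k ≥ 0`, `c j ≠ 0` in `F`,

  where the `g j k` are polynomials over `F`, `g j k` of degree `d j k`, square free and pairwise
  without common roots (for given `j`);
* (the base) `ℓ i = 0`, `i < q`, are hyperplanes in general position which do not contain `Y`, such
  that the points `ℓ i` impose independent conditions on the forms of degree `D`, with weights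
  `wt i ≥ 0` whose sum is greater than `(p + 1) γ`, `γ = (v - p + D).choose (v - p)`; if `e i` is the
  multiplicity of the hyperplane `ℓ i = 0` at the prime divisor `P` of `X` (for the divisors without
  fixed component which the map defines) then `min (#{i | e i ≠ 0}) γ ≤ ∑ i, (1 - wt i) e i`;
  or: `p ≥ 1`, there are more than `(v + Q).choose v` general hyperplanes, `2 v m ≤ Q (m - 1)`,
  `m ≥ 2`, and each `e i` is `0` or at least `m`.

Then abundance holds for `X`. Let
`W j = ∑ k, d j k * (1 - gcd (m j, a j k) / m j) + 1 - gcd (m j, ∑ k, a j k * d j k) / m j`; if `C j` is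
the curve over `F` given by the `j`-th equation, of genus `g j`, and of degree `n j` over the line,
then `2 g j - 2 = n j * (W j - 2)`. The canonical divisor of `X` is pseudo-effective if and only if
`W j ≥ 2` (`g j ≥ 1`) for all `j`, and then `κ(X) = ν(X)` is `p` plus the number of the `j` with
`W j > 2` (`g j ≥ 2`); otherwise `κ(X) = ν(X) = -∞`. The moduli of the curves may vary.

The language and the definitions of `Pool.Agent.Y172` are used: `X` is given by the homogeneous
coordinates `y` of its generic point, with values in the function field `K` of `X`; the prime divisors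
of `X` are places `P` of `K`, `P.ord` is the order along `P`. If `K_X` is nef then the equality
`κ(X) = ν(X)` is equivalent to the assertion that a multiple of `K_X` is base point free (Kawamata).

Proof: over the finite extension of `ℂ(X)` generated by the roots of the `g j k` the products of
powers of determinants of logarithmic derivatives of the `x j - b`, `b` a root, are pluricanonical
forms along the fibres, regular at all divisors, vertical ones included. The extension is unramified
at the horizontal divisors, and at the vertical divisors the vector fields along the fibres are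
logarithmic, so the forms descend to `X`: symmetric functions of the conjugates (`push`). Together
with the forms of the base of `Pool.Agent.Y191` they give the lower bound. For the upper bound
(`cyc_can`), the traces to the field of `Y' × P^1 × ... × P^1` of the sections of `m K_X + A`, times
`∏ g j k (x j) ^ ⌈m w⌉`, are polynomials of bounded degree in the `x j` with `W j = 2` up to a
denominator which does not depend on `m`, and they vanish if `W j < 2` for some `j`.
-/

set_option autoImplicit false

open FF Pool.Agent.W602.GT Pool.Agent.Y172 Pool.Agent.Y191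

namespace Pool.Agent.Results.MP_97d78d_ag.SuperellipticAbundance

section

variable {K : Type} [Field K] [Algebra ℂ K] {N : ℕ}

/-- `X` is a projective variety of dimension `n` with canonical singularities, `y` is its generic
point. -/
def IsCanonicalVariety (y : Fin (N + 1) → K) (n : ℕ) : Prop :=
  NormalModel y ∧ Algebra.trdeg ℂ K = n ∧ Canonical y n

/-- The `b j` are the coordinates of a rational map whose image has dimension `p` and is not
contained in one of the hyperplanes `ℓ i = 0`. -/
def IsMap {v q : ℕ} (ℓ : Fin q → Fin (v + 1) → ℂ) (b : Fin (v + 1) → K) (p : ℕ) : Prop :=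
  (∀ i, lf (ℓ i) b ≠ 0) ∧ (∃ j, b j ≠ 0) ∧ Algebra.trdeg ℂ (RF ℂ b) = p

/-- Let `F` be the algebraic closure of `L` in `K`. The field `K` is generated over `F` by elements
`x j`, `z j` with `z j ^ m j = c j * ∏ k, g j k (x j) ^ a j k`, where the `x j` are algebraically
independent over `F`, `m j ≥ 1`, `c j` is a nonzero element of `F`, and the `g j k` are polynomials
over `F` of degree `d j k`, square free and pairwise without common roots for given `j`. -/
def CyclicFibres (L : IntermediateField ℂ K) {e : ℕ} (m s : Fin e → ℕ)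
    (d a : ∀ j, Fin (s j) → ℕ) : Prop :=
  ∃ (x z c : Fin e → K) (g : ∀ j, Fin (s j) → Polynomial (acl ℂ (L : Set K))),
    CycData (acl ℂ (L : Set K)) x z m s g a c ∧ ∀ j k, (g j k).natDegree = d j k

end

/-- `W = ∑ k, d k * (1 - gcd (m, a k) / m) + 1 - gcd (m, ∑ k, a k * d k) / m` -/
def weight (m : ℕ) {s : ℕ} (d a : Fin s → ℕ) : ℚ :=
  ∑ k, d k * (1 - (m.gcd (a k) : ℚ) / m) + (1 - (m.gcd (∑ k, a k * d k) : ℚ) / m)

/-- If all `W j` are at least `2` then the Kodaira dimension and the numerical dimension (with
respect to any effective integral divisor `A`) of `K_X` are `p` plus the number of the `j` with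
`W j > 2`; otherwise both are `-∞`. -/
def Abundance {K : Type} [Field K] [Algebra ℂ K] {N : ℕ} (y : Fin (N + 1) → K) (n p : ℕ) {e : ℕ}
    (W : Fin e → ℚ) : Prop :=
  ((∀ j, 2 ≤ W j) →
    kodairaDim y n 0 = ((p + (Finset.univ.filter fun j => 2 < W j).card : ℕ) : WithBot ℕ) ∧
    ∀ A, Effective y A → Integral y A →
      numericalDim y n 0 A = ((p + (Finset.univ.filter fun j => 2 < W j).card : ℕ) : EReal)) ∧
  ((∃ j, W j < 2) → kodairaDim y n 0 = ⊥ ∧ ∀ A, Effective y A → numericalDim y n 0 A = ⊥)

theorem wsum_eq {K : Type} [Field K] [Algebra ℂ K] {F : IntermediateField ℂ K} {e : ℕ}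
    {m s : Fin e → ℕ} {g : ∀ j, Fin (s j) → Polynomial F} {a d : ∀ j, Fin (s j) → ℕ}
    (hd : ∀ j k, (g j k).natDegree = d j k) (j : Fin e) :
    wsum m s g a j = weight (m j) (d j) (a j) := by
  unfold wsum weight wtc
  simp only [hd]

/-- the number of large weights -/
theorem exists_idx {e : ℕ} (W : Fin e → ℚ) :
    ∃ κ : Fin (Finset.univ.filter fun j => 2 < W j).card → Fin e, Function.Injective κ ∧
      ∀ i, 2 < W (κ i) := by
  classical
  let φ := (Finset.univ.filter fun j => 2 < W j).equivFin
  exact ⟨fun i => (φ.symm i : Fin e), fun a b hab => φ.symm.injective (Subtype.ext hab),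
    fun i => (Finset.mem_filter.1 (φ.symm i).2).2⟩

theorem abundance_of {K : Type} [Field K] [Algebra ℂ K] {N p e : ℕ} {y : Fin (N + 1) → K}
    {L : IntermediateField ℂ K} {m s : Fin e → ℕ} {d a : ∀ j, Fin (s j) → ℕ}
    (hy : IsCanonicalVariety y (p + e)) {x z c : Fin e → K}
    {g : ∀ j, Fin (s j) → Polynomial (acl ℂ (L : Set K))}
    (h : CycData (acl ℂ (L : Set K)) x z m s g a c) (hd : ∀ j k, (g j k).natDegree = d j k)
    (hK : (∀ j, 2 ≤ weight (m j) (d j) (a j)) → KodairaGe (p + e) {P | IsPrimeDivisor y P}
      (fun _ => 0) (p + (Finset.univ.filter fun j => 2 < weight (m j) (d j) (a j)).card)) :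
    Abundance y (p + e) p fun j => weight (m j) (d j) (a j) := by
  classical
  obtain ⟨h1, h2⟩ := cyc_can hy.1 hy.2.1 hy.2.2 (acl_closed (L : Set K)) h
  simp only [wsum_eq hd] at h1 h2
  refine ⟨fun hw => h2 _ hw ?_ (hK hw), h1⟩
  rw [add_assoc]
  congr 1
  have h3 := Finset.card_filter_add_card_filter_not (s := (Finset.univ : Finset (Fin e)))
    (fun j => 2 < weight (m j) (d j) (a j))
  rw [Finset.card_univ, Fintype.card_fin] at h3
  have h4 : (Finset.univ.filter fun j => ¬ 2 < weight (m j) (d j) (a j)) =
      Finset.univ.filter fun j => weight (m j) (d j) (a j) = 2 := by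
    refine Finset.filter_congr fun j _ => ?_
    rw [not_lt]
    exact ⟨fun h => le_antisymm h (hw j), fun h => h.le⟩
  rw [h4] at h3
  exact h3.symm

/-- **Abundance.** Let `X` be a projective variety with canonical singularities of dimension
`p + e`, `b` the coordinates of a rational map `X ⇢ P^v` whose image `Y` has dimension `p`, and let
`X` be birational to a fibre product of `e` cyclic covers as in `CyclicFibres`, over the field
`RF ℂ b` of `Y`.

(1) Let `ℓ i = 0` be hyperplanes in general position which do not contain the image and impose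
independent conditions on the forms of degree `D`, with weights `wt i ≥ 0` whose sum is greater than
`(p + 1) * γ`, where `γ = (v - p + D).choose (v - p)`, and let the multiplicities `e i` satisfy
`min (#{i | e i ≠ 0}) γ ≤ ∑ i, (1 - wt i) e i` at all prime divisors of `X`. Then `κ(X) = ν(X)` is `p`
plus the number of the `j` with `W j > 2` if `W j ≥ 2` for all `j`, and `-∞` otherwise.

(2) Let `m' ≥ 2`, `2 * v * m' ≤ Q * (m' - 1)` and `(v + Q).choose v < q`. For `q` general hyperplanes
(some polynomial `Ψ` does not vanish at the coefficients) the following holds: if `p ≥ 1` and the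
multiplicities `e i` at the prime divisors of `X` are `0` or at least `m'`, then `κ(X) = ν(X)` with the
same value. -/
theorem result {v q : ℕ} (hv : 1 ≤ v) :
    (∀ D p : ℕ, 0 < D → ∀ ℓ : Fin q → Fin (v + 1) → ℂ, Independent D ℓ → GeneralPosition ℓ →
      v + 1 ≤ q → ∀ (K : Type) [Field K] [Algebra ℂ K] (N e : ℕ) (m s : Fin e → ℕ)
      (d a : ∀ j, Fin (s j) → ℕ) (y : Fin (N + 1) → K), IsCanonicalVariety y (p + e) →
      ∀ b : Fin (v + 1) → K, IsMap ℓ b p → ∀ wt : Fin q → ℚ, (∀ i, 0 ≤ wt i) →
      (((p + 1) * (v - p + D).choose (v - p) : ℕ) : ℚ) < ∑ i, wt i →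
      (∀ P, IsPrimeDivisor y P → ∀ (c : ℤ) (e : Fin q → ℕ), OrdData P ℓ b c e →
        ((min (Finset.univ.filter fun i => e i ≠ 0).card ((v - p + D).choose (v - p)) : ℕ) : ℚ) ≤
          ∑ i, (1 - wt i) * e i) →
      CyclicFibres (RF ℂ b) m s d a →
      Abundance y (p + e) p fun j => weight (m j) (d j) (a j)) ∧
    ∀ m' Q : ℕ, 2 ≤ m' → 2 * v * m' ≤ Q * (m' - 1) → (v + Q).choose v < q →
      ∃ Ψ : MvPolynomial (Fin q × Fin (v + 1)) ℂ, Ψ ≠ 0 ∧
        ∀ ℓ : Fin q → Fin (v + 1) → ℂ, MvPolynomial.eval (fun x => ℓ x.1 x.2) Ψ ≠ 0 →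
        ∀ (K : Type) [Field K] [Algebra ℂ K] (N p e : ℕ) (m s : Fin e → ℕ)
        (d a : ∀ j, Fin (s j) → ℕ) (y : Fin (N + 1) → K), 1 ≤ p →
        IsCanonicalVariety y (p + e) → ∀ b : Fin (v + 1) → K, IsMap ℓ b p →
        (∀ P, IsPrimeDivisor y P → ∀ (c : ℤ) (e : Fin q → ℕ), OrdData P ℓ b c e →
          ∀ i, e i = 0 ∨ m' ≤ e i) →
        CyclicFibres (RF ℂ b) m s d a →
        Abundance y (p + e) p fun j => weight (m j) (d j) (a j) := by
  constructor
  · rintro D p hD ℓ hI hg hq K _ _ N e m s d a y hy b ⟨hl, hb, htr⟩ wt hwt hlt hmult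
      ⟨x, z, c, g, hc, hd⟩
    refine abundance_of hy hc hd fun hws => ?_
    obtain ⟨κ, hκ, hκs⟩ := exists_idx fun j => weight (m j) (d j) (a j)
    obtain ⟨M, hM, θ, hθ, hne⟩ := cyc_low (N := p + e) hc
      (fun j => by rw [wsum_eq hd]; exact hws j) hκ (fun i => by rw [wsum_eq hd]; exact hκs i)
      {P | IsPrimeDivisor y P}
    refine (small_fib (δ₁ := fun _ => 0) (δ := fun _ => 0) hD hI hg hq hl hb htr hy.2.1 hwt hlt.le
      (fun P _ => by simp) (fun P hP _ c e ho => ?_) hM hθ hne).2 hlt
    have h3 := hmult P hP c e ho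
    have h4 := (Rat.cast_le (K := ℝ)).2 h3
    rw [mul_zero, zero_add]
    push_cast at h4 ⊢
    exact h4
  · intro m' Q hm hQ hq
    obtain ⟨Ψ, hΨ, h⟩ := general_fib (n := v) (q := q) hv hm hQ hq
    refine ⟨Ψ, hΨ, ?_⟩
    rintro ℓ hℓ K _ _ N p e m s d a y hp hy b ⟨hl, hb, htr⟩ hmult ⟨x, z, c, g, hc, hd⟩
    refine abundance_of hy hc hd fun hws => ?_
    obtain ⟨κ, hκ, hκs⟩ := exists_idx fun j => weight (m j) (d j) (a j)
    obtain ⟨M, hM, θ, hθ, hne⟩ := cyc_low (N := p + e) hc
      (fun j => by rw [wsum_eq hd]; exact hws j) hκ (fun i => by rw [wsum_eq hd]; exact hκs i)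
      {P | IsPrimeDivisor y P}
    refine h ℓ hℓ K p e _ hp hy.2.1 b hl hb htr {P | IsPrimeDivisor y P}
      (fun _ => 0) (fun _ => 0) (fun _ => 0) (fun P _ => le_rfl) (fun P _ => by simp)
      (fun P hP _ c e ho i => ?_) M hM θ hθ hne
    rcases hmult P hP c e ho i with h1 | h1
    · exact Or.inl h1
    · right
      rw [sub_zero, mul_one]
      exact_mod_cast h1

end Pool.Agent.Results.MP_97d78d_ag.SuperellipticAbundance
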